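import Pool.Agent.VM.StmtsW

/-!
# Squad VMV, module BLK
-/

set_option autoImplicit false

namespace Pool.Agent.VM.H75

/-- two solutions are at distance at least `d` -/
theorem blk_aux {d : ℕ} {g m : ℤ} {φ η δ : ℝ} (hd : d.Prime) (hg : ¬ (d : ℤ) ∣ g)
    (hφ : |φ - (g : ℝ) / (d : ℝ)| ≤ η / (d : ℝ)) (hδ : 2 * δ + η < 1 / (d : ℝ)) (hm0 : m ≠ 0)
    (hmd : |m| < (d : ℤ)) {z : ℤ} (hz : |φ * (m : ℝ) - z| ≤ 2 * δ) : False := by
  have hd0 : (0 : ℝ) < d := by exact_mod_cast hd.pos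
  have hη : 0 ≤ η := by
    have h1 := (abs_nonneg _).trans hφ
    by_contra h
    push Not at h
    exact absurd h1 (not_le.2 (div_neg_of_neg_of_pos h hd0))
  have hmR : |(m : ℝ)| ≤ d := by
    have h1 : ((|m| : ℤ) : ℝ) < ((d : ℤ) : ℝ) := by exact_mod_cast hmd
    rw [Int.cast_abs] at h1
    have h2 : ((d : ℤ) : ℝ) = (d : ℝ) := by simp
    rw [h2] at h1
    exact h1.le
  have h1 : |φ * m - (g : ℝ) / d * m| ≤ η := by
    rw [← sub_mul, abs_mul]
    calc |φ - (g : ℝ) / d| * |(m : ℝ)| ≤ η / d * d :=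
          mul_le_mul hφ hmR (abs_nonneg _) (div_nonneg hη hd0.le)
      _ = η := by field_simp
  have h2 : |(g : ℝ) / d * m - z| ≤ 2 * δ + η := by
    have e : (g : ℝ) / d * m - z = (φ * m - z) - (φ * m - (g : ℝ) / d * m) := by ring
    rw [e]
    exact (abs_sub _ _).trans (add_le_add hz h1)
  have h3 : ¬ (d : ℤ) ∣ g * m := by
    intro h
    rcases (Nat.prime_iff_prime_int.1 hd).dvd_mul.1 h with h4 | h4
    · exact hg h4
    · exact absurd (Int.le_of_dvd (abs_pos.2 hm0) ((dvd_abs _ _).2 h4)) (not_le.2 hmd)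
  have h4 : g * m - z * d ≠ 0 := by
    intro h
    apply h3
    exact ⟨z, by linarith [mul_comm z (d : ℤ)]⟩
  have h5 : (1 : ℝ) ≤ |((g * m - z * d : ℤ) : ℝ)| := by
    rw [← Int.cast_abs]
    exact_mod_cast Int.one_le_abs h4
  have h6 : |((g * m - z * d : ℤ) : ℝ)| = |(g : ℝ) / d * m - z| * d := by
    have e : ((g * m - z * d : ℤ) : ℝ) = ((g : ℝ) / d * m - z) * d := by
      push_cast
      field_simp
    rw [e, abs_mul, abs_of_pos hd0]
  rw [h6] at h5
  have h7 : |(g : ℝ) / d * m - z| * d < 1 := by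
    calc |(g : ℝ) / d * m - z| * d ≤ (2 * δ + η) * d := mul_le_mul_of_nonneg_right h2 hd0.le
      _ < 1 / d * d := mul_lt_mul_of_pos_right hδ hd0
      _ = 1 := by field_simp
  linarith

theorem blk : BlkStmt := by
  intro d g x φ c₀ η δ L hd hg hφ hδ
  have hd0 : (0 : ℤ) < d := by exact_mod_cast hd.pos
  let f : {n : ℤ // x ≤ n ∧ n < x + L ∧ Nr (φ * (n : ℝ) + c₀) δ} → Fin (L / d + 1) :=
    fun n => ⟨((n.1 - x) / d).toNat, by
      have h1 : 0 ≤ n.1 - x := by linarith [n.2.1]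
      have h2 : n.1 - x < L := by linarith [n.2.2.1]
      have h3 : (n.1 - x) / (d : ℤ) ≤ (L : ℤ) / (d : ℤ) := Int.ediv_le_ediv hd0 h2.le
      have h4 : 0 ≤ (n.1 - x) / (d : ℤ) := Int.ediv_nonneg h1 hd0.le
      have h5 : ((L / d : ℕ) : ℤ) = (L : ℤ) / (d : ℤ) := by push_cast; rfl
      omega⟩
  have hf : Function.Injective f := by
    intro n n' h
    have h1 := congrArg Fin.val h
    change ((n.1 - x) / (d : ℤ)).toNat = ((n'.1 - x) / (d : ℤ)).toNat at h1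
    have h2 : 0 ≤ (n.1 - x) / (d : ℤ) := Int.ediv_nonneg (by linarith [n.2.1]) hd0.le
    have h3 : 0 ≤ (n'.1 - x) / (d : ℤ) := Int.ediv_nonneg (by linarith [n'.2.1]) hd0.le
    have h4 : (n.1 - x) / (d : ℤ) = (n'.1 - x) / (d : ℤ) := by omega
    have h5 := Int.emod_add_mul_ediv (n.1 - x) d
    have h6 := Int.emod_add_mul_ediv (n'.1 - x) d
    have h7 := Int.emod_nonneg (n.1 - x) hd0.ne'
    have h8 := Int.emod_lt_of_pos (n.1 - x) hd0
    have h9 := Int.emod_nonneg (n'.1 - x) hd0.ne'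
    have h10 := Int.emod_lt_of_pos (n'.1 - x) hd0
    rw [h4] at h5
    by_contra hne
    have hm0 : n.1 - n'.1 ≠ 0 := fun h0 => hne (Subtype.ext (sub_eq_zero.1 h0))
    have hmd : |n.1 - n'.1| < (d : ℤ) := by
      rw [abs_lt]
      constructor <;> linarith
    obtain ⟨z, hz⟩ := n.2.2.2
    obtain ⟨z', hz'⟩ := n'.2.2.2
    refine blk_aux hd hg hφ hδ hm0 hmd (z := z - z') ?_
    have e : φ * ((n.1 - n'.1 : ℤ) : ℝ) - ((z - z' : ℤ) : ℝ) =
        (φ * (n.1 : ℝ) + c₀ - z) - (φ * (n'.1 : ℝ) + c₀ - z') := by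
      push_cast
      ring
    rw [e]
    refine (abs_sub _ _).trans ?_
    linarith
  have h := Nat.card_le_card_of_injective f hf
  rwa [Nat.card_fin] at h

end Pool.Agent.VM.H75
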