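import Pool.Agent.VM.StmtsW

/-!
# Squad VMV, module NUM
-/

set_option autoImplicit false

namespace Pool.Agent.VM.H75

theorem num : NumStmt := by
  intro k hk
  refine ⟨100 * k, by omega, ?_⟩
  intro B
  obtain ⟨c, hc⟩ : ∃ c, c = 100 * k := ⟨_, rfl⟩
  rw [← hc]
  have hc300 : 300 ≤ c := by omega
  have hcpos : 0 < c := by omega
  obtain ⟨D₀, hD₀⟩ : ∃ D₀, D₀ = B + 4 * c ^ 2 + 8 * k * c ^ 2 * 2 ^ (k - 1) + 1 +
    c ^ (2 * (k - 1)) + k + 4 := ⟨_, rfl⟩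
  refine ⟨(c * D₀) ^ 2, ?_⟩
  intro q D K hq hD hK
  have hs : c * D₀ ≤ Nat.sqrt q := Nat.le_sqrt'.2 hq
  have hDD : D₀ ≤ D := by
    rw [hD]
    exact (Nat.le_div_iff_mul_le hcpos).2 (by rw [mul_comm]; exact hs)
  have hBD : B ≤ D := by omega
  have hcD : 4 * c ^ 2 ≤ D := by omega
  have h8D : 8 * k * c ^ 2 * 2 ^ (k - 1) + 1 ≤ D := by omega
  have hpD : c ^ (2 * (k - 1)) ≤ D := by omega
  have hkD : k ≤ D := by omega
  have hD1 : 1 ≤ D := by omega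
  have h1 : c * D ≤ Nat.sqrt q := by
    rw [hD]
    exact Nat.mul_div_le _ _
  have h2 : Nat.sqrt q + 1 ≤ c * (D + 1) := by
    rw [hD]
    exact Nat.lt_mul_div_succ _ hcpos
  have h3 : c ^ 2 * D ^ 2 ≤ q := by
    calc c ^ 2 * D ^ 2 = (c * D) ^ 2 := by ring
      _ ≤ Nat.sqrt q ^ 2 := Nat.pow_le_pow_left h1 2
      _ ≤ q := Nat.sqrt_le' q
  have h4 : q < c ^ 2 * (D + 1) ^ 2 := by
    calc q < (Nat.sqrt q + 1) ^ 2 := Nat.lt_succ_sqrt' q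
      _ ≤ (c * (D + 1)) ^ 2 := Nat.pow_le_pow_left h2 2
      _ = c ^ 2 * (D + 1) ^ 2 := by ring
  have h5 : 4 * D * K ≤ q := by
    rw [hK]
    exact Nat.mul_div_le q (4 * D)
  have h6 : q < 4 * D * (K + 1) := by
    rw [hK]
    exact Nat.lt_mul_div_succ q (by omega)
  have h7 : q ≤ 4 * c ^ 2 * D ^ 2 := by
    have h : (D + 1) ^ 2 ≤ 4 * D ^ 2 := by nlinarith
    calc q ≤ c ^ 2 * (D + 1) ^ 2 := h4.le
      _ ≤ c ^ 2 * (4 * D ^ 2) := Nat.mul_le_mul_left _ h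
      _ = 4 * c ^ 2 * D ^ 2 := by ring
  have h8 : c ^ 2 * D < 4 * (K + 1) := by
    have h : (c ^ 2 * D) * D < (4 * (K + 1)) * D := by
      calc (c ^ 2 * D) * D = c ^ 2 * D ^ 2 := by ring
        _ ≤ q := h3
        _ < 4 * D * (K + 1) := h6
        _ = (4 * (K + 1)) * D := by ring
    exact Nat.lt_of_mul_lt_mul_right h
  have h9 : K ≤ c ^ 2 * D := by
    have h : (4 * D) * K ≤ (4 * D) * (c ^ 2 * D) := by
      calc (4 * D) * K ≤ q := h5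
        _ ≤ 4 * c ^ 2 * D ^ 2 := h7
        _ = (4 * D) * (c ^ 2 * D) := by ring
    exact Nat.le_of_mul_le_mul_left h (by omega)
  have hc2 : 90000 ≤ c ^ 2 := by nlinarith
  have hc2D : 90000 * D ≤ c ^ 2 * D := Nat.mul_le_mul_right _ hc2
  have hK4 : 4 ≤ K := by omega
  have h10 : c ^ 2 * D ≤ 5 * K := by omega
  have hK10 : 10 * D ≤ K := by omega
  have hK1 : 1 ≤ K := by omega
  have hK2D : 2 * D ≤ K := by omega
  have hK52 : 5 * (2 * D) ≤ K := by omega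
  have hK6 : 6 * D < K := by omega
  have hkK : k ≤ K := by omega
  have hD2 : D ≤ 2 * D := by omega
  have h2D1 : 1 ≤ 2 * D := by omega
  have h8D' : 8 * k * c ^ 2 * 2 ^ (k - 1) < D := h8D
  have h11 : q ≤ 5 * D * K := by
    have h : 4 * D * (K + 1) ≤ 5 * D * K := by nlinarith
    exact h6.le.trans h
  have hqD3 : q ≤ D ^ 3 := by
    calc q ≤ 4 * c ^ 2 * D ^ 2 := h7
      _ ≤ D * D ^ 2 := Nat.mul_le_mul_right _ hcD
      _ = D ^ 3 := by ring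
  obtain ⟨j, rfl⟩ : ∃ j, k = j + 3 := ⟨k - 3, by omega⟩
  have e1 : j + 3 - 1 = j + 2 := by omega
  have e2 : j + 3 - 2 = j + 1 := by omega
  rw [e1] at h8D' hpD
  rw [e1, e2]
  clear h8D hDD hD₀ hs hq hkD
  have hKpos : 0 < K := hK1
  have hK2 : K ^ 2 ≤ K ^ (j + 2) := Nat.pow_le_pow_right hKpos (Nat.le_add_left 2 j)
  -- `c² q ≤ 25 K²`
  have h12 : c ^ 2 * q ≤ 25 * K ^ 2 := by
    calc c ^ 2 * q ≤ c ^ 2 * (5 * D * K) := Nat.mul_le_mul_left _ h11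
      _ = 5 * K * (c ^ 2 * D) := by ring
      _ ≤ 5 * K * (5 * K) := Nat.mul_le_mul_left _ h10
      _ = 25 * K ^ 2 := by ring
  have h13 : 3600 * q ≤ K ^ 2 := by
    have h : 90000 * q ≤ c ^ 2 * q := Nat.mul_le_mul_right _ hc2
    nlinarith
  have h3D : (2 * D) ^ 3 ≤ (2 * D) ^ (j + 3) := Nat.pow_le_pow_right h2D1 (Nat.le_add_left 3 j)
  refine ⟨hBD, hK1, ?_, h11, h5, hK2D, ?_, ?_, ?_, ?_, ?_, ?_, ?_, hqD3, ?_⟩
  · have h0 : 0 < D ^ 2 := Nat.pow_pos hD1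
    have h8 : 8 < c ^ 2 := lt_of_lt_of_le (by norm_num) hc2
    have h9 : 8 * D ^ 2 < c ^ 2 * D ^ 2 := Nat.mul_lt_mul_of_pos_right h8 h0
    have h10 : 2 * (2 * D) ^ 2 = 8 * D ^ 2 := by ring
    rw [h10]
    exact h9.trans_le h3
  · refine hqD3.trans (le_trans ?_ h3D)
    exact Nat.pow_le_pow_left hD2 3
  · have h : (5 * (2 * D)) ^ (j + 3) ≤ K ^ (j + 3) := Nat.pow_le_pow_left hK52 _
    rw [mul_pow] at h
    have h' : 5 ^ 1 ≤ 5 ^ (j + 3) := Nat.pow_le_pow_right (Nat.succ_pos 4) (Nat.le_add_left 1 _)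
    have h'' : 0 < (2 * D) ^ (j + 3) := Nat.pow_pos h2D1
    calc 4 * (2 * D) ^ (j + 3) < 5 ^ 1 * (2 * D) ^ (j + 3) :=
          Nat.mul_lt_mul_of_pos_right (by norm_num) h''
      _ ≤ 5 ^ (j + 3) * (2 * D) ^ (j + 3) := Nat.mul_le_mul_right _ h'
      _ ≤ K ^ (j + 3) := h
  · have h : 1 ≤ q := by
      have h0 : 0 < c ^ 2 * D ^ 2 := Nat.mul_pos (Nat.pow_pos hcpos) (Nat.pow_pos hD1)
      exact lt_of_lt_of_le h0 h3
    have h' : 4 * q + 2 ≤ K ^ 2 := by linarith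
    exact h'.trans hK2
  · have h : 2 * D * (j + 2 + 2 * K) < K ^ 2 := by
      have hj : j + 2 + 2 * K ≤ 3 * K := by linarith
      calc 2 * D * (j + 2 + 2 * K) ≤ 2 * D * (3 * K) := Nat.mul_le_mul_left _ hj
        _ = (6 * D) * K := by ring
        _ < K * K := Nat.mul_lt_mul_of_pos_right hK6 hKpos
        _ = K ^ 2 := by ring
    exact h.trans_le hK2
  · -- `8 k q (2 D) ^ (k - 2) < D K ^ (k - 1)`
    have h : 5 * (40 * (j + 3) * (2 * D) + 1) ≤ c ^ 2 * D := by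
      have hcc : c ^ 2 * D = 10000 * (j + 3) ^ 2 * D := by rw [hc]; ring
      rw [hcc]
      nlinarith [Nat.zero_le (j * D), Nat.zero_le (j ^ 2 * D)]
    have hb' : 40 * (j + 3) * (2 * D) < K := by linarith
    have h2K : (2 * D) ^ j ≤ K ^ j := Nat.pow_le_pow_left hK2D _
    have hKj : 0 < K ^ j := Nat.pow_pos hKpos
    calc 8 * (j + 3) * q * (2 * D) ^ (j + 1)
        ≤ 8 * (j + 3) * (5 * D * K) * (2 * D) ^ (j + 1) :=
          Nat.mul_le_mul_right _ (Nat.mul_le_mul_left _ h11)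
      _ = (D * K) * ((40 * (j + 3) * (2 * D)) * (2 * D) ^ j) := by ring
      _ ≤ (D * K) * ((40 * (j + 3) * (2 * D)) * K ^ j) :=
          Nat.mul_le_mul_left _ (Nat.mul_le_mul_left _ h2K)
      _ < (D * K) * (K * K ^ j) := by
          refine Nat.mul_lt_mul_of_pos_left ?_ (Nat.mul_pos hD1 hKpos)
          exact Nat.mul_lt_mul_of_pos_right hb' hKj
      _ = D * K ^ (j + 2) := by ring
  · -- `2 k q (2 D) ^ (k - 1) < D ^ (k + 2)`
    have h : 8 * (j + 3) * c ^ 2 * 2 ^ (j + 2) < D := h8D'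
    have hDj : 0 < D ^ (j + 4) := Nat.pow_pos hD1
    calc 2 * (j + 3) * q * (2 * D) ^ (j + 2)
        ≤ 2 * (j + 3) * (4 * c ^ 2 * D ^ 2) * (2 * D) ^ (j + 2) :=
          Nat.mul_le_mul_right _ (Nat.mul_le_mul_left _ h7)
      _ = (8 * (j + 3) * c ^ 2 * 2 ^ (j + 2)) * D ^ (j + 4) := by
          rw [mul_pow]
          ring
      _ < D * D ^ (j + 4) := Nat.mul_lt_mul_of_pos_right h hDj
      _ = D ^ (j + 3 + 2) := by ring
  · have h : c ^ (2 * (j + 2)) ≤ D ^ 3 := hpD.trans (Nat.le_self_pow (by norm_num) D)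
    calc K ^ (j + 2) ≤ (c ^ 2 * D) ^ (j + 2) := Nat.pow_le_pow_left h9 _
      _ = c ^ (2 * (j + 2)) * D ^ (j + 2) := by rw [mul_pow, ← pow_mul]
      _ ≤ D ^ 3 * D ^ (j + 2) := Nat.mul_le_mul_right _ h
      _ = D ^ (j + 3 + 2) := by ring
  · have h : 4 * c ^ 2 * D ^ 2 ≤ 5 * c ^ 2 * D ^ 2 := by
      have := Nat.zero_le (c ^ 2 * D ^ 2)
      nlinarith
    exact h7.trans h

end Pool.Agent.VM.H75
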